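import Pool.Agent.W368.PrgL1p

/-!
# Task EAS: the explicit generator against the easy circuits
-/

set_option autoImplicit false

namespace Pool.Agent.NPC.W951P

open Pool.Agent.H547R7 Pool.Agent.H547R6 Pool.Agent.NPC Pool.Agent.H424R2.PPAD Pool.Agent.NPC.W368P

section lib

variable {α : Type} [TEnc α]

theorem poly_par {n : α → ℕ} {f : α → ℕ → Bool} (hn : UPoly n)
    (hf : Poly (fun q : α × ℕ => f q.1 q.2)) : Poly (fun a => par (n a) (f a)) :=
  Poly.decide_eq (Poly.mod (poly_countP (p := f) hn.range hf) (Poly.const 2)) (Poly.const 1)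

theorem poly_conv {n : α → ℕ} {u v : α → List Bool} (hn : UPoly n) (hu : Poly u) (hv : Poly v) :
    Poly (fun a => conv (n a) (u a) (v a)) := by
  refine Poly.map (F := fun a k => par (n a) fun i =>
    (u a).getD i false && (v a).getD ((k + n a - i) % n a) false) hn.range ?_
  refine poly_par (f := fun (q : α × ℕ) i => (u q.1).getD i false &&
    (v q.1).getD ((q.2 + n q.1 - i) % n q.1) false) (hn.comp (Poly.fst Poly.id)) ?_
  have h1 : Poly (fun q : (α × ℕ) × ℕ => u q.1.1) := hu.comp (Poly.fst (Poly.fst Poly.id))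
  have h2 : Poly (fun q : (α × ℕ) × ℕ => v q.1.1) := hv.comp (Poly.fst (Poly.fst Poly.id))
  have h3 : Poly (fun q : (α × ℕ) × ℕ => n q.1.1) :=
    hn.toPoly.comp (Poly.fst (Poly.fst Poly.id))
  exact Poly.and (Poly.getD h1 (Poly.snd Poly.id) (Poly.const false))
    (Poly.getD h2 (Poly.mod (Poly.sub (Poly.add (Poly.snd (Poly.fst Poly.id)) h3)
      (Poly.snd Poly.id)) h3) (Poly.const false))

theorem conv_length (n : ℕ) (a b : List Bool) : (conv n a b).length = n := by
  simp [conv]

theorem pw_length (n : ℕ) (a : List Bool) (i : ℕ) : (pw n a i).length = n := by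
  cases i with
  | zero => simp [pw]
  | succ i => simp [pw, conv_length]

theorem pw_iterate (n : ℕ) (a : List Bool) (i : ℕ) : (conv n a)^[i] (pw n a 0) = pw n a i := by
  induction i with
  | zero => rfl
  | succ i ih => rw [Function.iterate_succ_apply', ih]; rfl

theorem poly_pw {n i : α → ℕ} {u : α → List Bool} (hn : UPoly n) (hu : Poly u) (hi : UPoly i) :
    Poly (fun a => pw (n a) (u a) (i a)) := by
  have h0 : Poly (fun a => pw (n a) (u a) 0) :=
    Poly.map (F := fun _ k => decide (k = 0)) hn.range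
      (Poly.decide_eq (Poly.snd Poly.id) (Poly.const 0))
  obtain ⟨p, hp⟩ := hn.sz_le
  have := Poly.iterLen (l := fun a => List.replicate (i a) ()) (s := fun a => pw (n a) (u a) 0)
    (F := fun a s => conv (n a) (u a) s) hi h0
    (poly_conv (hn.comp (Poly.fst Poly.id)) (hu.comp (Poly.fst Poly.id)) (Poly.snd Poly.id))
    (Polynomial.C 4 * p + Polynomial.C 1) (by
      intro a j _
      change sz ((conv (n a) (u a))^[j] (pw (n a) (u a) 0)) ≤ _
      rw [pw_iterate]
      have h1 := sz_listBool_le (pw (n a) (u a) j)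
      rw [pw_length] at h1
      have h2 : n a < sz (List.replicate (n a) ()) := by
        have := length_lt_sz (List.replicate (n a) ())
        simpa using this
      have h3 := hp a
      simp only [Polynomial.eval_add, Polynomial.eval_mul, Polynomial.eval_C]
      omega)
  refine this.congr fun a => ?_
  rw [List.length_replicate]
  exact pw_iterate _ _ _

theorem poly_sbit {n i : α → ℕ} {w : α → List Bool} (hn : UPoly n) (hw : Poly w) (hi : UPoly i) :
    Poly (fun a => sbit (n a) (w a) (i a)) := by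
  have h1 : Poly (fun q : α × ℕ => w q.1) := hw.comp (Poly.fst Poly.id)
  have h2 : Poly (fun q : α × ℕ => n q.1) := hn.toPoly.comp (Poly.fst Poly.id)
  have h3 : Poly (fun q : α × ℕ => pw (n q.1) (w q.1) (i q.1)) :=
    (poly_pw hn hw hi).comp (Poly.fst Poly.id)
  refine poly_par (f := fun a j => (w a).getD (n a + j) false &&
    (pw (n a) (w a) (i a)).getD j false) hn ?_
  exact Poly.and (Poly.getD h1 (Poly.add h2 (Poly.snd Poly.id)) (Poly.const false))
    (Poly.getD h3 (Poly.snd Poly.id) (Poly.const false))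

/-- step in the computation of the least power of three that is at least `x` -/
def st3 (x s : ℕ) : ℕ := if s < x then 3 * s else s

/-- the least power of three that is at least `x` -/
def g3 (x : ℕ) : ℕ := (st3 x)^[x] 1

theorem st3_inv (x : ℕ) (hx : 1 ≤ x) (j : ℕ) : (∃ l, (st3 x)^[j] 1 = 3 ^ l) ∧
    (st3 x)^[j] 1 < 3 * x ∧ (x ≤ (st3 x)^[j] 1 ∨ (st3 x)^[j] 1 = 3 ^ j) := by
  induction j with
  | zero => exact ⟨⟨0, rfl⟩, by simp; omega, Or.inr rfl⟩
  | succ j ih =>
    rw [Function.iterate_succ_apply']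
    obtain ⟨⟨l, h1⟩, h2, h3⟩ := ih
    by_cases h : (st3 x)^[j] 1 < x
    · have e : st3 x ((st3 x)^[j] 1) = 3 * (st3 x)^[j] 1 := by simp [st3, h]
      rw [e]
      refine ⟨⟨l + 1, by rw [h1, pow_succ]; ring⟩, by omega, ?_⟩
      rcases h3 with h3 | h3
      · omega
      · right; rw [h3, pow_succ]; ring
    · have e : st3 x ((st3 x)^[j] 1) = (st3 x)^[j] 1 := by simp [st3, h]
      rw [e]
      exact ⟨⟨l, h1⟩, h2, Or.inl (by omega)⟩

theorem g3_spec (x : ℕ) (hx : 1 ≤ x) : (∃ l, g3 x = 3 ^ l) ∧ x ≤ g3 x ∧ g3 x < 3 * x := by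
  obtain ⟨h1, h2, h3⟩ := st3_inv x hx x
  refine ⟨h1, ?_, h2⟩
  rcases h3 with h3 | h3
  · exact h3
  · unfold g3
    rw [h3]
    exact (Nat.lt_pow_self (by norm_num)).le

theorem poly_g3 {x : α → ℕ} (hx : UPoly x) (h : ∀ a, 1 ≤ x a) : UPoly (fun a => g3 (x a)) := by
  obtain ⟨p, hp⟩ := hx.sz_le
  have h1 : Poly (fun a => g3 (x a)) := by
    have := Poly.iterLen (l := fun a => List.replicate (x a) ()) (s := fun _ => 1)
      (F := fun a s => st3 (x a) s) hx (Poly.const 1)
      (Poly.ite (p := fun q : α × ℕ => q.2 < x q.1)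
        (Poly.decide_lt (Poly.snd Poly.id) (hx.toPoly.comp (Poly.fst Poly.id)))
        (Poly.mul (Poly.const 3) (Poly.snd Poly.id)) (Poly.snd Poly.id))
      (Polynomial.C 12 * p + Polynomial.C 1) (by
        intro a j _
        change sz ((st3 (x a))^[j] 1) ≤ _
        obtain ⟨-, h2, -⟩ := st3_inv (x a) (h a) j
        have h1 := sz_nat_le ((st3 (x a))^[j] 1)
        have h3 := Poly.size_le_self ((st3 (x a))^[j] 1)
        have h4 : x a < sz (List.replicate (x a) ()) := by
          have := length_lt_sz (List.replicate (x a) ())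
          simpa using this
        have h5 := hp a
        simp only [Polynomial.eval_add, Polynomial.eval_mul, Polynomial.eval_C]
        omega)
    refine this.congr fun a => ?_
    rw [List.length_replicate]
    rfl
  refine UPoly.of_le h1 (UPoly.mul (UPoly.const 3) hx) fun a => ?_
  exact (g3_spec (x a) (h a)).2.2.le

end lib

/-- block length of the generator -/
def nE (m : ℕ) : ℕ := 3 * g3 (Nat.log 2 m + 2)

/-- seed length -/
def dE (m : ℕ) : ℕ := 2 * nE m + 1

/-- the generator -/
def GE (m : ℕ) (s : List Bool) : List Bool :=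
  (List.range m).map fun i => xor (sbit (nE m) (s.take (2 * nE m)) i) (s.getD (2 * nE m) false)

theorem uPoly_nE {α : Type} [TEnc α] {m : α → ℕ} (hm : UPoly m) : UPoly (fun a => nE (m a)) := by
  unfold nE
  refine UPoly.mul (UPoly.const 3) (poly_g3 ?_ fun a => by omega)
  refine UPoly.add (UPoly.of_le (poly_log hm.toPoly) hm fun a => Nat.log_le_self _ _)
    (UPoly.const 2)

theorem ptime_dE : PTime (fun u : List Bool => dE u.length) := by
  apply PTime.of_poly
  have hm : UPoly (fun u : List Bool => u.length) := UPoly.length Poly.id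
  exact Poly.add (Poly.mul (Poly.const 2) (uPoly_nE hm).toPoly) (Poly.const 1)

theorem poly_gen {α : Type} [TEnc α] {n m : α → ℕ} {s : α → List Bool} (hn : UPoly n)
    (hm : UPoly m) (hs : Poly s) : Poly (fun a => (List.range (m a)).map fun i =>
      xor (sbit (n a) ((s a).take (2 * n a)) i) ((s a).getD (2 * n a) false)) := by
  have hn2 : Poly (fun a => 2 * n a) := Poly.mul (Poly.const 2) hn.toPoly
  have hw : Poly (fun a => (s a).take (2 * n a)) := poly_take hs hn2
  have hb : Poly (fun a => (s a).getD (2 * n a) false) := Poly.getD hs hn2 (Poly.const false)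
  have hm' : UPoly (fun q : α × ℕ => m q.1) := hm.comp (Poly.fst Poly.id)
  have hn' : UPoly (fun q : α × ℕ => n q.1) := hn.comp (Poly.fst Poly.id)
  have hw' : Poly (fun q : α × ℕ => (s q.1).take (2 * n q.1)) := hw.comp (Poly.fst Poly.id)
  have hb' : Poly (fun q : α × ℕ => (s q.1).getD (2 * n q.1) false) :=
    hb.comp (Poly.fst Poly.id)
  have hi : UPoly (fun q : α × ℕ => min q.2 (m q.1)) :=
    UPoly.of_le (Poly.min (Poly.snd Poly.id) hm'.toPoly) hm' fun q => min_le_right _ _
  have key : Poly (fun a => (List.range (m a)).map fun i =>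
      xor (sbit (n a) ((s a).take (2 * n a)) (min i (m a))) ((s a).getD (2 * n a) false)) :=
    Poly.map (F := fun a i =>
      xor (sbit (n a) ((s a).take (2 * n a)) (min i (m a))) ((s a).getD (2 * n a) false))
      hm.range (Poly.xor (poly_sbit hn' hw' hi) hb')
  refine key.congr fun p => ?_
  refine List.map_congr_left fun i hi => ?_
  rw [min_eq_left (List.mem_range.1 hi).le]

theorem ptime_GE : PTime (fun p : List Bool × List Bool => GE p.1.length p.2) := by
  apply PTime.of_poly
  have hm : UPoly (fun p : List Bool × List Bool => p.1.length) := UPoly.length (Poly.fst Poly.id)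
  exact poly_gen (uPoly_nE hm) hm (Poly.snd Poly.id)

theorem pr_equiv {Ω Ω' : Type} [Fintype Ω] [Fintype Ω'] (e : Ω ≃ Ω') (p : Ω' → Bool) :
    pr (fun x => p (e x)) = pr p := by
  unfold pr
  rw [Fintype.card_congr e]
  congr 2
  exact Finset.card_bij (fun x _ => e x) (fun x hx => by simpa using hx)
    (fun x _ y _ h => e.injective h) (fun y hy => ⟨e.symm y, by simpa using hy, by simp⟩)

theorem t_EAS (ha : S_ALG) (hf : S_FOO) : S_EAS := by
  refine ⟨dE, GE, ptime_dE, ptime_GE, 55, 1024, fun m hm => ?_⟩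
  set L := Nat.log 2 m with hL
  have hm0 : m ≠ 0 := by omega
  have hL10 : 10 ≤ L := by
    rw [hL]
    have : Nat.log 2 1024 ≤ Nat.log 2 m := Nat.log_mono_right hm
    have e : Nat.log 2 1024 = 10 := by
      rw [show (1024 : ℕ) = 2 ^ 10 by norm_num, Nat.log_pow (by norm_num)]
    omega
  obtain ⟨⟨l, hl⟩, h1, h2⟩ := g3_spec (L + 2) (by omega)
  have hn : nE m = 3 ^ (l + 1) := by
    unfold nE
    rw [← hL, hl, pow_succ]; ring
  have hn' : nE m = 3 * g3 (L + 2) := rfl
  have hd : dE m ≤ 18 * L + 37 := by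
    unfold dE; omega
  have hpow : 18 * L + 37 < 2 ^ L := by
    have key : ∀ k : ℕ, 18 * (k + 10) + 37 < 2 ^ (k + 10) := by
      intro k
      induction k with
      | zero => norm_num
      | succ k ih =>
        rw [show k + 1 + 10 = (k + 10) + 1 by ring, pow_succ]
        omega
    have := key (L - 10)
    rwa [Nat.sub_add_cancel hL10] at this
  have hLm : 2 ^ L ≤ m := Nat.pow_log_le_self 2 hm0
  refine ⟨by omega, by omega, fun s _ => by simp [GE], ?_⟩
  rintro C ⟨B, s, hB, hC⟩
  have hβ : (0 : ℝ) ≤ (m : ℝ) / 2 ^ (2 * 3 ^ l) := by positivity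
  have key := hf (Fin (2 * 3 ^ (l + 1)) → Bool) m
    (fun w i => sbit (3 ^ (l + 1)) (List.ofFn w) i) ((m : ℝ) / 2 ^ (2 * 3 ^ l)) hβ ?_ B s C hB hC
  · have e1 : pr (fun s : Fin (dE m) → Bool => C (vec m (GE m (List.ofFn s)))) =
        pr (fun w : (Fin (2 * 3 ^ (l + 1)) → Bool) × Bool =>
          C (fun i => xor (sbit (3 ^ (l + 1)) (List.ofFn w.1) i) w.2)) := by
      have hdn : dE m = 2 * 3 ^ (l + 1) + 1 := by unfold dE; rw [hn]
      have e2 : ∀ (N : ℕ) (hN : dE m = N) (P : List Bool → Bool),
          pr (fun s : Fin (dE m) → Bool => P (List.ofFn s)) =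
          pr (fun s : Fin N → Bool => P (List.ofFn s)) := by
        intro N hN P
        subst hN
        rfl
      rw [e2 _ hdn (fun s => C (vec m (GE m s)))]
      rw [← pr_equiv ((Equiv.prodComm _ _).trans
        (Fin.snocEquiv (fun _ : Fin (2 * 3 ^ (l + 1) + 1) => Bool)))]
      congr 1
      funext w
      congr 1
      funext i
      have hlen : (List.ofFn w.1).length = 2 * 3 ^ (l + 1) := List.length_ofFn
      have e3 : List.ofFn (Fin.snoc w.1 w.2 : Fin (2 * 3 ^ (l + 1) + 1) → Bool) =
          List.ofFn w.1 ++ [w.2] := by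
        rw [List.ofFn_succ']
        simp [List.concat_eq_append]
      have e4 : (((Equiv.prodComm _ _).trans
        (Fin.snocEquiv (fun _ : Fin (2 * 3 ^ (l + 1) + 1) => Bool))) w) =
          (Fin.snoc w.1 w.2 : Fin (2 * 3 ^ (l + 1) + 1) → Bool) := rfl
      rw [e4, e3]
      simp only [vec, GE, hn]
      rw [List.getD_eq_getElem?_getD, List.getElem?_map, List.getElem?_range i.2]
      simp only [Option.map_some, Option.getD_some]
      congr 1
      · rw [List.take_append_of_le_length (by rw [hlen]), List.take_of_length_le (by rw [hlen])]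
      · rw [List.getD_eq_getElem?_getD, List.getElem?_append_right (by rw [hlen]), hlen]
        simp
    rw [e1]
    refine key.trans ?_
    -- 2 * (m / 2^(2*3^l)) ≤ 1/m
    have h3 : m < 2 ^ (L + 1) := Nat.lt_pow_succ_log_self (by norm_num) m
    have h4 : 2 * m ^ 2 ≤ 2 ^ (2 * 3 ^ l) := by
      have h5 : m ^ 2 ≤ (2 ^ (L + 1)) ^ 2 := Nat.pow_le_pow_left h3.le 2
      have h6 : 2 * (2 ^ (L + 1)) ^ 2 = 2 ^ (2 * L + 3) := by
        rw [← pow_mul, ← pow_succ']
        congr 1
        ring
      have h7 : 2 ^ (2 * L + 3) ≤ 2 ^ (2 * 3 ^ l) := by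
        apply Nat.pow_le_pow_right (by norm_num)
        rw [hl] at h1
        omega
      omega
    have hmpos : (0 : ℝ) < m := by positivity
    have h8 : (2 : ℝ) * (m : ℝ) ^ 2 ≤ 2 ^ (2 * 3 ^ l) := by exact_mod_cast h4
    have h9 : (0 : ℝ) < 2 ^ (2 * 3 ^ l) := by positivity
    change 2 * ((m : ℝ) / 2 ^ (2 * 3 ^ l)) ≤ 1 / (m : ℝ)
    rw [← mul_div_assoc, div_le_div_iff₀ h9 hmpos]
    nlinarith
  · intro T hT
    have := ha l m (T.map Fin.valEmbedding) (hT.map) (by
      intro x hx
      rw [Finset.mem_map] at hx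
      obtain ⟨y, -, rfl⟩ := hx
      simp)
    refine le_trans (le_of_eq ?_) this
    have hfun : (fun w : Fin (2 * 3 ^ (l + 1)) → Bool => decide ((T.filter fun i : Fin m =>
        sbit (3 ^ (l + 1)) (List.ofFn w) (i : ℕ) = true).card % 2 = 1)) =
        (fun w : Fin (2 * 3 ^ (l + 1)) → Bool => decide (((T.map Fin.valEmbedding).filter fun i =>
        sbit (3 ^ (l + 1)) (List.ofFn w) i = true).card % 2 = 1)) := by
      funext w
      rw [Finset.filter_map, Finset.card_map]
      rfl
    rw [hfun]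

end Pool.Agent.NPC.W951P
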