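import Pool.Agent.W641.PrgOrg
import Pool.Agent.W973.PrgExp
import Pool.Agent.W973.PrgXor
import Pool.Agent.W973.PrgAls
import Pool.Agent.W973.PrgMod
import Pool.Agent.W973.PrgGad
import Pool.Agent.W973.PrgCor
import Pool.Agent.W369.PrgSam
import Pool.Agent.W369.PrgAlg
import Pool.Agent.W369.PrgFoo
import Pool.Agent.W369.PrgCpx
import Pool.Agent.W368.PrgL1p
import Pool.Agent.W951.PRG.Eas
import Pool.Agent.W374.PrgL0
import Pool.Agent.W374.PrgDua
import Pool.Agent.W641.PrgL2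
import Pool.Agent.W641.PrgL1a
import Pool.Agent.H547R7.T_CHE
import Pool.Agent.H547R7.T_THR

/-!
# Logarithmic-seed generators against circuits over sets of Boolean functions
-/

set_option autoImplicit false

namespace Pool.Agent.W951.PRG

open Pool.Agent.H547R6 Pool.Agent.NPC Pool.Agent.H424R2.PPAD Pool.Agent.H547R7

theorem s_COR : S_COR := Pool.Agent.W973.PrgC.t_COR Pool.Agent.W973.PrgE.t_EXP t_CHE
theorem s_L1A : S_L1A := Pool.Agent.W641.PRG.t_L1A t_PRJ Pool.Agent.W973.PrgA.t_ALS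
  Pool.Agent.W973.PrgM.t_MOD Pool.Agent.W973.PrgG.t_GAD s_COR Pool.Agent.W369.PrgCpx.t_CPX
  Pool.Agent.NPC.W368P.t_L1P
theorem s_L0 : S_L0 := Pool.Agent.W374.PRG.t_L0
theorem s_L3 : S_L3 := Pool.Agent.W374.PRG.t_L3 Pool.Agent.W641.PRG.t_ORG s_L0
theorem s_L2 : S_L2 := Pool.Agent.W641.PRG.t_L2 Pool.Agent.W369.PrgSam.t_SAM
  Pool.Agent.W973.Prg.t_XOR s_L0 t_THR
theorem s_DUA : S_DUA := Pool.Agent.W374.PRG.t_DUA
theorem s_EAS : S_EAS := Pool.Agent.NPC.W951P.t_EAS Pool.Agent.W369.PrgAlg.t_ALG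
  Pool.Agent.W369.PrgFoo.t_FOO

theorem LogGen.mono {T T' : ∀ m : ℕ, Set (BF m)} {ε ε' : ℕ → ℝ} (hT : ∀ m, T' m ⊆ T m)
    (hε : ∀ m, ε m ≤ ε' m) (h : LogGen T ε) : LogGen T' ε' := by
  obtain ⟨d, G, hd, hG, c, m₀, hm⟩ := h
  refine ⟨d, G, hd, hG, c, m₀, fun m hmm => ?_⟩
  obtain ⟨h1, h2, h3, h4⟩ := hm m hmm
  exact ⟨h1, h2, h3, fun C hC => (h4 C (hT m hC)).trans (hε m)⟩

/-- Error reduction. -/
theorem reduce {κ ε : ℝ} (hκ : κ < 1 / 2) (hε : 0 < ε) (h : LogGen (T0 1) (fun _ => κ)) :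
    LogGen (T0 1) (fun _ => ε) := by
  obtain ⟨κ', hκ'⟩ : ∃ κ' : ℝ, κ' = max κ 0 := ⟨_, rfl⟩
  have hκ0 : 0 ≤ κ' := by rw [hκ']; exact le_max_right _ _
  have hκ1 : κ' < 1 / 2 := by rw [hκ']; exact max_lt hκ (by norm_num)
  have h' : LogGen (T0 1) (fun _ => κ') :=
    LogGen.mono (fun _ => Set.Subset.refl _) (fun _ => by rw [hκ']; exact le_max_left _ _) h
  obtain ⟨ε', hε'⟩ : ∃ e : ℝ, e = min ε (1 / 4) := ⟨_, rfl⟩
  have hε0 : 0 < ε' := by rw [hε']; exact lt_min hε (by norm_num)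
  have hε1 : ε' ≤ 1 / 4 := by rw [hε']; exact min_le_right _ _
  have hεε : ε' ≤ ε := by rw [hε']; exact min_le_left _ _
  obtain ⟨δ, hδ⟩ : ∃ δ : ℝ, δ = ε' * (1 - 2 * κ') / 8 := ⟨_, rfl⟩
  have hδ0 : 0 < δ := by rw [hδ]; have : 0 < 1 - 2 * κ' := by linarith
                         positivity
  have hδ1 : δ ≤ 1 := by rw [hδ]; nlinarith
  obtain ⟨η, hη⟩ : ∃ η : ℝ, η = ε' * (1 - 2 * κ') / 2 := ⟨_, rfl⟩
  have hη0 : 0 < η := by rw [hη]; have : 0 < 1 - 2 * κ' := by linarith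
                         positivity
  have key : ∀ n : ℕ, ∃ x : ℝ, 0 ≤ x ∧ x ≤ κ' ⊔ ε' ∧ x ≤ max ε' (κ' - n * η) ∧
      LogGen (T0 1) (fun _ => x) := by
    intro n
    induction n with
    | zero =>
      refine ⟨κ', hκ0, le_max_left _ _, ?_, h'⟩
      simp
    | succ n ih =>
      obtain ⟨x, hx0, hx1, hx2, hx⟩ := ih
      by_cases hxε : x ≤ ε'
      · exact ⟨x, hx0, hx1, hxε.trans (le_max_left _ _), hx⟩
      · push Not at hxε
        have hxκ : x ≤ κ' := by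
          rcases le_max_iff.1 hx1 with h | h
          · exact h
          · linarith
        have hx3 : x ≤ κ' - n * η := by
          rcases le_max_iff.1 hx2 with h | h
          · linarith
          · exact h
        refine ⟨2 * x ^ 2 + 4 * δ, by positivity, ?_, ?_, s_L2 x δ hx0 (by linarith) hδ0 hδ1 hx⟩
        · refine le_trans ?_ (le_max_left _ _)
          rw [hδ]; nlinarith
        · refine le_trans ?_ (le_max_right _ _)
          push_cast
          have : 2 * x ^ 2 + 4 * δ ≤ x - η := by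
            rw [hδ, hη]; nlinarith
          linarith
  obtain ⟨n, hn⟩ := exists_nat_gt ((κ' - ε') / η)
  rw [div_lt_iff₀ hη0] at hn
  obtain ⟨x, _, _, hx2, hx⟩ := key n
  refine LogGen.mono (fun _ => Set.Subset.refl _) (fun _ => ?_) hx
  refine le_trans ?_ hεε
  rcases le_max_iff.1 hx2 with h | h
  · exact h
  · linarith

/-- The dichotomy. -/
theorem main (B : Set BFun) (hB : B.Finite) :
    ((B ⊆ Aff ∨ B ⊆ Conj ∨ B ⊆ Disj ∨ B ⊆ SelfDual) →
      LogGen (fun m => {C | ∃ s, Computes B m s C}) (fun m => 1 / m)) ∧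
    (¬ (B ⊆ Aff ∨ B ⊆ Conj ∨ B ⊆ Disj ∨ B ⊆ SelfDual) → ∀ ε : ℝ, 0 < ε → ε < 1 / 6 →
      (LogGen (fun m => {C | Computes B m m C}) (fun _ => ε) ↔
        LogGen (fun m => {C | Comp0 m m C}) (fun _ => 1 / 8))) := by
  have hT0 : (fun m : ℕ => {C : BF m | Comp0 m m C}) = T0 1 := by
    funext m
    unfold T0
    rw [pow_one]
  constructor
  · intro h
    refine LogGen.mono ?_ (fun _ => le_refl _) s_EAS
    rintro m C ⟨s, hs⟩
    exact ⟨B, s, h, hs⟩
  · intro h ε hε0 hε1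
    rw [hT0]
    push Not at h
    obtain ⟨hA, hC, hD, hS⟩ := h
    constructor
    · intro hgen
      have hκ : ∃ κ < (1 / 2 : ℝ), LogGen (T0 1) (fun _ => κ) := by
        rcases t_CLO B hA hC hD hS with h1 | h1
        · exact s_L1A B h1 ε hε0.le hε1 hgen
        · have h2 : Op3 (dualB B) (fun a b c => a && (b || c)) := by
            have h3 := Gen.dual h1
            refine h3.congr fun x => ?_
            beta_reduce
            cases x 0 <;> cases x 1 <;> cases x 2 <;> rfl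
          exact s_L1A (dualB B) h2 ε hε0.le hε1 (s_DUA B ε hgen)
      obtain ⟨κ, hκ1, hκ2⟩ := hκ
      exact reduce hκ1 (by norm_num) hκ2
    · intro hgen
      exact s_L3 B ε hB (reduce (by norm_num) hε0 hgen)

end Pool.Agent.W951.PRG
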